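import Pool.Agent.H79.TD.Stm3

/-!
Project EX (helper79), module RDC: reduction of a basis modulo almost all primes.
-/

set_option autoImplicit false

open MvPolynomial Module Pool.Agent.H77.TF Pool.Agent.H77.GR Pool.Agent.H79.TD

namespace Pool.Agent.H66.EX

/-- clearing denominators -/
theorem clear (f : MvPolynomial (Fin 3) ℚ) :
    ∃ (N : ℤ) (g : MvPolynomial (Fin 3) ℤ), N ≠ 0 ∧
      MvPolynomial.map (Int.castRingHom ℚ) g = C (N : ℚ) * f := by
  induction f using MvPolynomial.induction_on with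
  | C a =>
    refine ⟨a.den, C a.num, by exact_mod_cast a.den_nz, ?_⟩
    rw [map_C, ← C_mul]
    congr 1
    have := Rat.den_mul_eq_num a
    simp only [eq_intCast, Int.cast_natCast]
    exact this.symm
  | add f g hf hg =>
    obtain ⟨N, u, hN, hu⟩ := hf
    obtain ⟨M, v, hM, hv⟩ := hg
    refine ⟨N * M, C M * u + C N * v, mul_ne_zero hN hM, ?_⟩
    rw [map_add, map_mul, map_mul, hu, hv, map_C, map_C]
    push_cast
    rw [C_mul]
    simp only [eq_intCast]
    ring
  | mul_X f i hf =>
    obtain ⟨N, u, hN, hu⟩ := hf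
    refine ⟨N, u * X i, hN, ?_⟩
    rw [map_mul, hu, map_X]
    ring

theorem clear_fin {ι : Type} [Fintype ι] (f : ι → MvPolynomial (Fin 3) ℚ) :
    ∃ (N : ℤ) (g : ι → MvPolynomial (Fin 3) ℤ), N ≠ 0 ∧
      ∀ i, MvPolynomial.map (Int.castRingHom ℚ) (g i) = C (N : ℚ) * f i := by
  classical
  choose N g hN hg using fun i => clear (f i)
  refine ⟨∏ i, N i, fun i => C (∏ j ∈ Finset.univ.erase i, N j) * g i,
    Finset.prod_ne_zero_iff.2 fun i _ => hN i, fun i => ?_⟩
  rw [map_mul, hg, map_C, ← mul_assoc, ← C_mul]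
  congr 2
  rw [← Finset.mul_prod_erase Finset.univ N (Finset.mem_univ i)]
  simp only [eq_intCast]
  push_cast
  ring

theorem map_inj : Function.Injective (MvPolynomial.map (σ := Fin 3) (Int.castRingHom ℚ)) :=
  MvPolynomial.map_injective _ (RingHom.injective_int _)

theorem map_linR {R R' : Type} [CommRing R] [CommRing R'] (f : R →+* R') (a : Fin 3 → R) :
    MvPolynomial.map f (linR a) = linR (fun j => f (a j)) := by
  simp [linR]

theorem map_evlR {R R' : Type} [CommRing R] [CommRing R'] (f : R →+* R') (a : Fin 3 → R)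
    (v : Fin 3 → MvPolynomial (Fin 3) R) :
    MvPolynomial.map f (evlR a v) = evlR (fun j => f (a j)) (mapV f v) := by
  simp [evlR, mapV]

theorem evlR_mul {R : Type} [CommRing R] (a : Fin 3 → R) (p : MvPolynomial (Fin 3) R)
    (v : Fin 3 → MvPolynomial (Fin 3) R) :
    evlR a (fun j => p * v j) = p * evlR a v := by
  simp only [evlR, Finset.mul_sum]
  exact Finset.sum_congr rfl fun j _ => by ring

theorem lin_hom {K : Type} [Field K] (a : Fin 3 → K) : (lin a).IsHomogeneous 1 := by
  refine IsHomogeneous.sum _ _ _ fun i _ => ?_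
  simpa using (isHomogeneous_C (Fin 3) (a i)).mul (isHomogeneous_X K i)

theorem det_hom {K : Type} [Field K] {w : Fin 3 → Fin 3 → MvPolynomial (Fin 3) K} {e : Fin 3 → ℕ}
    (h : ∀ j i, (w j i).IsHomogeneous (e j)) : (Matrix.of w).det.IsHomogeneous (∑ j, e j) := by
  rw [Matrix.det_apply']
  refine IsHomogeneous.sum _ _ _ fun σ _ => ?_
  have h1 : (∏ i, Matrix.of w (σ i) i).IsHomogeneous (∑ i, e (σ i)) :=
    IsHomogeneous.prod _ _ _ fun i _ => h (σ i) i
  rw [Equiv.sum_comp σ e] at h1
  have h2 := (isHomogeneous_C (Fin 3) ((Equiv.Perm.sign σ : ℤ) : K)).mul h1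
  simpa using h2

theorem lin_ne_zero {K : Type} [Field K] {a : Fin 3 → K} (ha : a ≠ 0) : lin a ≠ 0 := by
  intro h0
  apply ha
  funext j
  have := congrArg (MvPolynomial.coeff (Finsupp.single j 1)) h0
  rw [coeff_zero, lin, coeff_sum] at this
  rw [Finset.sum_eq_single j] at this
  · simpa using this
  · intro i _ hij
    rw [coeff_C_mul, coeff_X]
    rw [if_neg, mul_zero]
    intro h2
    exact hij (Finsupp.single_left_injective one_ne_zero h2)
  · intro h1
    exact absurd (Finset.mem_univ j) h1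

theorem rdc (hSAC : S_SAC) (hSAI : S_SAI) : S_RDC := by
  classical
  intro n A e hS hE
  obtain ⟨b, hb⟩ := hE
  obtain ⟨c, hc, hdet⟩ := hSAC ℚ (Fin n) (mapA (Int.castRingHom ℚ) A) hS b
  have hprod0 : ∏ i, lin (mapA (Int.castRingHom ℚ) A i) ≠ 0 :=
    Finset.prod_ne_zero_iff.2 fun i _ => lin_ne_zero (hS.1 i)
  have hC0 : (C c : MvPolynomial (Fin 3) ℚ) ≠ 0 := by
    rw [Ne, C_eq_zero]
    exact hc
  constructor
  · -- degrees
    have h1 : (Matrix.of fun k => (b k : Fin 3 → MvPolynomial (Fin 3) ℚ)).det.IsHomogeneous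
        (∑ j, e j) := det_hom hb
    have h2 : (C c * ∏ i, lin (mapA (Int.castRingHom ℚ) A i)).IsHomogeneous n := by
      have h3 := (isHomogeneous_C (Fin 3) c).mul
        (IsHomogeneous.prod Finset.univ (fun i => lin (mapA (Int.castRingHom ℚ) A i))
          (fun _ => 1) (fun i _ => lin_hom _))
      simpa using h3
    rw [hdet] at h1
    exact h1.inj_right h2 (mul_ne_zero hC0 hprod0)
  -- common denominators for the basis
  obtain ⟨N, V, hN, hV⟩ := clear_fin (fun x : Fin 3 × Fin 3 =>
    (b x.1 : Fin 3 → MvPolynomial (Fin 3) ℚ) x.2)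
  have hVhom : ∀ j i, (V (j, i)).IsHomogeneous (e j) := by
    intro j i d hd
    have h1 : MvPolynomial.coeff d (MvPolynomial.map (Int.castRingHom ℚ) (V (j, i))) ≠ 0 := by
      rw [coeff_map]
      simpa using hd
    rw [hV, coeff_C_mul] at h1
    exact hb j i (right_ne_zero_of_mul h1)
  -- the determinant
  have hNq : (N : ℚ) ≠ 0 := by exact_mod_cast hN
  have hdetV : MvPolynomial.map (Int.castRingHom ℚ) (Matrix.of fun j i => V (j, i)).det =
      C ((N : ℚ) ^ 3 * c) * ∏ i, lin (mapA (Int.castRingHom ℚ) A i) := by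
    rw [RingHom.map_det]
    have e1 : (MvPolynomial.map (Int.castRingHom ℚ)).mapMatrix (Matrix.of fun j i => V (j, i)) =
        (C (N : ℚ) : MvPolynomial (Fin 3) ℚ) •
          (Matrix.of fun k => (b k : Fin 3 → MvPolynomial (Fin 3) ℚ)) := by
      ext1 j i
      rw [RingHom.mapMatrix_apply, Matrix.map_apply, Matrix.of_apply, hV, Matrix.smul_apply,
        Matrix.of_apply, smul_eq_mul]
    rw [e1, Matrix.det_smul, hdet, Fintype.card_fin, C_mul, C_pow]
    ring
  set D : ℤ := ((N : ℚ) ^ 3 * c).num with hD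
  set M : ℤ := (((N : ℚ) ^ 3 * c).den : ℤ) with hM
  have hM0 : M ≠ 0 := by rw [hM]; exact Int.natCast_ne_zero.2 (Rat.den_nz _)
  have hD0 : D ≠ 0 := by
    rw [hD, Ne, Rat.num_eq_zero]
    exact mul_ne_zero (pow_ne_zero 3 hNq) hc
  have hMD : C M * (Matrix.of fun j i => V (j, i)).det = C D * ∏ i, linR (A i) := by
    apply map_inj
    rw [map_mul, map_mul, hdetV, map_C, map_C, map_prod, ← mul_assoc, ← C_mul]
    have e2 : (Int.castRingHom ℚ) M * ((N : ℚ) ^ 3 * c) = (Int.castRingHom ℚ) D := by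
      have := Rat.den_mul_eq_num ((N : ℚ) ^ 3 * c)
      rw [hM, hD]
      simp only [eq_intCast, Int.cast_natCast]
      exact this
    rw [e2]
    congr 1
    refine Finset.prod_congr rfl fun i _ => ?_
    rw [map_linR]
    rfl
  -- the quotients
  have hquo : ∀ x : Fin n × Fin 3, ∃ g : MvPolynomial (Fin 3) ℚ,
      evl (mapA (Int.castRingHom ℚ) A x.1) (b x.2 : Fin 3 → MvPolynomial (Fin 3) ℚ) =
        lin (mapA (Int.castRingHom ℚ) A x.1) * g := fun x => (b x.2).2 x.1
  choose g hg using hquo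
  obtain ⟨T, G, hT, hG⟩ := clear_fin g
  have hTG : ∀ (i : Fin n) (j : Fin 3), C T * evlR (A i) (fun s => V (j, s)) =
      linR (A i) * (C N * G (i, j)) := by
    intro i j
    apply map_inj
    rw [map_mul, map_mul, map_mul, map_evlR, map_linR, map_C, map_C, hG]
    have e3 : mapV (Int.castRingHom ℚ) (fun s => V (j, s)) =
        fun s => C (N : ℚ) * (b j : Fin 3 → MvPolynomial (Fin 3) ℚ) s := by
      funext s
      exact hV (j, s)
    rw [e3, evlR_mul]
    have e4 : evlR (fun s => (Int.castRingHom ℚ) (A i s))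
        (b j : Fin 3 → MvPolynomial (Fin 3) ℚ) =
        linR (fun s => (Int.castRingHom ℚ) (A i s)) * g (i, j) := hg (i, j)
    rw [e4]
    simp only [eq_intCast]
    ring
  refine ⟨(M * D * T).natAbs, Int.natAbs_ne_zero.2 (mul_ne_zero (mul_ne_zero hM0 hD0) hT), ?_⟩
  intro k _ p _ _ hp hSk
  have hne : ∀ z : ℤ, z ∣ M * D * T → (z : k) ≠ 0 := by
    intro z hz h0
    rw [CharP.intCast_eq_zero_iff k p z] at h0
    exact hp (Int.natCast_dvd.1 (h0.trans hz))
  have hMk : (M : k) ≠ 0 := hne M ⟨D * T, by ring⟩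
  have hDk : (D : k) ≠ 0 := hne D ⟨M * T, by ring⟩
  have hTk : (T : k) ≠ 0 := hne T ⟨M * D, by ring⟩
  have hLD : ∀ j : Fin 3, mapV (Int.castRingHom k) (fun s => V (j, s)) ∈
      LD (mapA (Int.castRingHom k) A) := by
    intro j i
    have h1 := congrArg (MvPolynomial.map (Int.castRingHom k)) (hTG i j)
    rw [map_mul, map_mul, map_evlR, map_linR, map_C] at h1
    have h2 : lin (mapA (Int.castRingHom k) A i) ∣ C (T : k) *
        evl (mapA (Int.castRingHom k) A i) (mapV (Int.castRingHom k) (fun s => V (j, s))) := by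
      refine ⟨MvPolynomial.map (Int.castRingHom k) (C N * G (i, j)), ?_⟩
      · have h3 : C ((Int.castRingHom k) T) * evlR (fun s => (Int.castRingHom k) (A i s))
            (mapV (Int.castRingHom k) fun s => V (j, s)) =
            linR (fun s => (Int.castRingHom k) (A i s)) *
              MvPolynomial.map (Int.castRingHom k) (C N * G (i, j)) := h1
        rw [eq_intCast (Int.castRingHom k) T] at h3
        exact h3
    have h4 : IsUnit (C (T : k) : MvPolynomial (Fin 3) k) := (IsUnit.mk0 _ hTk).map C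
    exact (h4.dvd_mul_left).1 h2
  have hdetk : (Matrix.of (fun j => mapV (Int.castRingHom k) (fun s => V (j, s)))).det =
      C ((M : k)⁻¹ * D) * ∏ i, lin (mapA (Int.castRingHom k) A i) := by
    have h1 := congrArg (MvPolynomial.map (Int.castRingHom k)) hMD
    rw [map_mul, map_mul, map_C, map_C, map_prod, RingHom.map_det] at h1
    have e5 : (MvPolynomial.map (Int.castRingHom k)).mapMatrix (Matrix.of fun j i => V (j, i)) =
        Matrix.of (fun j => mapV (Int.castRingHom k) (fun s => V (j, s))) := by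
      ext1 j i
      rw [RingHom.mapMatrix_apply, Matrix.map_apply, Matrix.of_apply, Matrix.of_apply]
      rfl
    rw [e5] at h1
    have e6 : ∏ i, MvPolynomial.map (Int.castRingHom k) (linR (A i)) =
        ∏ i, lin (mapA (Int.castRingHom k) A i) :=
      Finset.prod_congr rfl fun i _ => by
        rw [map_linR]
        rfl
    rw [e6] at h1
    simp only [eq_intCast] at h1
    have e7 : (C (M : k)⁻¹ : MvPolynomial (Fin 3) k) * C (M : k) = 1 := by
      rw [← C_mul, inv_mul_cancel₀ hMk, C_1]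
    calc (Matrix.of (fun j => mapV (Int.castRingHom k) (fun s => V (j, s)))).det
        = C (M : k)⁻¹ * (C (M : k) *
          (Matrix.of (fun j => mapV (Int.castRingHom k) (fun s => V (j, s)))).det) := by
          rw [← mul_assoc, e7, one_mul]
      _ = C (M : k)⁻¹ * (C (D : k) * ∏ i, lin (mapA (Int.castRingHom k) A i)) := by rw [h1]
      _ = _ := by rw [C_mul, mul_assoc]
  obtain ⟨b', hb'⟩ := hSAI k 3 (Fin n) (mapA (Int.castRingHom k) A) hSk
    (fun j => mapV (Int.castRingHom k) (fun s => V (j, s))) ((M : k)⁻¹ * D)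
    (mul_ne_zero (inv_ne_zero hMk) hDk) hLD hdetk
  refine ⟨b', fun j i => ?_⟩
  rw [hb' j]
  exact (hVhom j i).map _

end Pool.Agent.H66.EX
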